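import Mathlib
import Pool.Agent.H71.AAE.Defs

set_option autoImplicit false

open Polynomial

namespace Pool.Agent.H71.AAE

universe u

open scoped IntermediateField in
theorem prim_two_fd {k K E : Type u} [Field k] [Infinite k] [Field K] [Field E] [Algebra k K]
    [Algebra K E] [Algebra k E] [IsScalarTower k K E] [FiniteDimensional K E]
    [Algebra.IsSeparable K E] (x z : E) :
    ∃ c : k, x ∈ K⟮x + algebraMap k E c * z⟯ ∧ z ∈ K⟮x + algebraMap k E c * z⟯ := by
  have h0 := Field.exists_primitive_element K E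
  have : Finite (IntermediateField K E) :=
    Field.finite_intermediateField_of_exists_primitive_element K E h0
  obtain ⟨c, c', hcc, h⟩ := Finite.exists_ne_map_eq_of_infinite
    (fun c : k => K⟮x + algebraMap k E c * z⟯)
  have hy : x + algebraMap k E c * z ∈ K⟮x + algebraMap k E c * z⟯ :=
    IntermediateField.mem_adjoin_simple_self K _
  have hy' : x + algebraMap k E c' * z ∈ K⟮x + algebraMap k E c * z⟯ := by
    rw [h]
    exact IntermediateField.mem_adjoin_simple_self K _
  have hmem : ∀ d : k, algebraMap k E d ∈ K⟮x + algebraMap k E c * z⟯ := by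
    intro d
    have h7 := (K⟮x + algebraMap k E c * z⟯).algebraMap_mem (algebraMap k K d)
    rwa [← IsScalarTower.algebraMap_apply k K E] at h7
  have hz : z ∈ K⟮x + algebraMap k E c * z⟯ := by
    have h1 := sub_mem hy hy'
    have h2 : (x + algebraMap k E c * z) - (x + algebraMap k E c' * z)
        = algebraMap k E (c - c') * z := by
      rw [map_sub]; ring
    rw [h2] at h1
    have h3 := mul_mem (hmem (c - c')⁻¹) h1
    have h4 : algebraMap k E (c - c')⁻¹ * (algebraMap k E (c - c') * z) = z := by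
      rw [← mul_assoc, ← map_mul, inv_mul_cancel₀ (sub_ne_zero.mpr hcc), map_one, one_mul]
    rwa [h4] at h3
  refine ⟨c, ?_, hz⟩
  have h5 := sub_mem hy (mul_mem (hmem c) hz)
  have h6 : x + algebraMap k E c * z - algebraMap k E c * z = x := by ring
  rwa [h6] at h5

open scoped IntermediateField in
theorem prim_two {k K L : Type u} [Field k] [CharZero k] [Field K] [Field L] [Algebra k K]
    [Algebra K L] [Algebra k L] [IsScalarTower k K L] (x z : L) (hx : IsAlgebraic K x)
    (hz : IsAlgebraic K z) :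
    ∃ c : k, x ∈ K⟮x + algebraMap k L c * z⟯ ∧ z ∈ K⟮x + algebraMap k L c * z⟯ := by
  have : CharZero K := charZero_of_injective_algebraMap (algebraMap k K).injective
  set F : IntermediateField K L := IntermediateField.adjoin K {x, z} with hF
  have : FiniteDimensional K F := by
    apply IntermediateField.finiteDimensional_adjoin
    intro y hy
    rcases hy with rfl | hy
    · exact hx.isIntegral
    · rw [Set.mem_singleton_iff] at hy
      subst hy
      exact hz.isIntegral
  have hxF : x ∈ F := IntermediateField.subset_adjoin K _ (by simp)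
  have hzF : z ∈ F := IntermediateField.subset_adjoin K _ (by simp)
  let : Algebra k F := ((algebraMap K F).comp (algebraMap k K)).toAlgebra
  have : IsScalarTower k K F := IsScalarTower.of_algebraMap_eq (fun _ => rfl)
  obtain ⟨c, h1, h2⟩ := prim_two_fd (k := k) (K := K) (E := F) ⟨x, hxF⟩ ⟨z, hzF⟩
  refine ⟨c, ?_⟩
  have key : ∀ w : F, w ∈ K⟮(⟨x, hxF⟩ : F) + algebraMap k F c * ⟨z, hzF⟩⟯ →
      (w : L) ∈ K⟮x + algebraMap k L c * z⟯ := by
    intro w hw
    have h3 : (F.val w) ∈ (K⟮(⟨x, hxF⟩ : F) + algebraMap k F c * ⟨z, hzF⟩⟯).map F.val :=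
      ⟨w, hw, rfl⟩
    rw [IntermediateField.adjoin_map] at h3
    have h4 : (F.val '' {(⟨x, hxF⟩ : F) + algebraMap k F c * ⟨z, hzF⟩})
        = {x + algebraMap k L c * z} := by
      rw [Set.image_singleton]
      congr 1
      rw [map_add, map_mul]
      congr 2
      rw [IsScalarTower.algebraMap_apply k K F, IsScalarTower.algebraMap_apply k K L]
      rfl
    rw [h4] at h3
    exact h3
  exact ⟨key _ h1, key _ h2⟩

open scoped IntermediateField in
theorem prim_many {k K L : Type u} [Field k] [CharZero k] [Field K] [Field L] [Algebra k K]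
    [Algebra K L] [Algebra k L] [IsScalarTower k K L] (m : ℕ) :
    ∀ (x : Fin (m + 1) → L), (∀ j, IsAlgebraic K (x j)) →
    ∃ a : Fin (m + 1) → k, a 0 = 1 ∧ ∀ j, x j ∈ K⟮∑ i, algebraMap k L (a i) * x i⟯ := by
  induction m with
  | zero =>
    intro x hx
    refine ⟨fun _ => 1, rfl, ?_⟩
    intro j
    have hj : j = 0 := by
      apply Fin.ext
      simp
    subst hj
    have : ∑ i : Fin (0 + 1), algebraMap k L 1 * x i = x 0 := by simp
    rw [this]
    exact IntermediateField.mem_adjoin_simple_self K _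
  | succ m ih =>
    intro x hx
    obtain ⟨a, ha0, ha⟩ := ih (fun j => x j.castSucc) (fun j => hx _)
    have hy : IsAlgebraic K (∑ i : Fin (m + 1), algebraMap k L (a i) * x i.castSucc) := by
      refine Finset.sum_induction _ (fun w => IsAlgebraic K w) (fun _ _ h1 h2 => h1.add h2)
        isAlgebraic_zero ?_
      intro i _
      rw [IsScalarTower.algebraMap_apply k K L]
      exact (isAlgebraic_algebraMap _).mul (hx _)
    obtain ⟨c, h1, h2⟩ := prim_two (k := k) (K := K)
      (∑ i : Fin (m + 1), algebraMap k L (a i) * x i.castSucc) (x (Fin.last _)) hy (hx _)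
    refine ⟨Fin.snoc (α := fun _ => k) a c, ?_, ?_⟩
    · have h0 : (0 : Fin (m + 1 + 1)) = Fin.castSucc 0 := rfl
      rw [h0, Fin.snoc_castSucc (α := fun _ => k)]
      exact ha0
    · have hs : ∑ i : Fin (m + 1 + 1), algebraMap k L (Fin.snoc (α := fun _ => k) a c i) * x i
          = ∑ i : Fin (m + 1), algebraMap k L (a i) * x i.castSucc
            + algebraMap k L c * x (Fin.last _) := by
        rw [Fin.sum_univ_castSucc]
        simp only [Fin.snoc_castSucc, Fin.snoc_last]
      rw [hs]
      intro j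
      refine Fin.lastCases h2 (fun j => ?_) j
      have h3 : K⟮∑ i : Fin (m + 1), algebraMap k L (a i) * x i.castSucc⟯ ≤
          K⟮∑ i : Fin (m + 1), algebraMap k L (a i) * x i.castSucc
            + algebraMap k L c * x (Fin.last _)⟯ := by
        rw [IntermediateField.adjoin_simple_le_iff]
        exact h1
      exact h3 (ha j)

open scoped IntermediateField in
theorem clear_mem {W K L : Type u} [CommRing W] [IsDomain W] [Field K] [Field L] [Algebra W K]
    [IsFractionRing W K] [Algebra K L] [Algebra W L] [IsScalarTower W K L] (y x : L)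
    (hy : IsAlgebraic K y) (hx : x ∈ K⟮y⟯) :
    ∃ b : W, b ≠ 0 ∧ ∃ Q : W[X], algebraMap W L b * x = aeval y Q := by
  have h1 : x ∈ (K⟮y⟯).toSubalgebra := hx
  rw [IntermediateField.adjoin_simple_toSubalgebra_of_isAlgebraic hy,
    Algebra.adjoin_singleton_eq_range_aeval] at h1
  obtain ⟨q, rfl⟩ := h1
  obtain ⟨b, hb, hq⟩ := IsLocalization.integerNormalization_spec (nonZeroDivisors W) q
  refine ⟨b, nonZeroDivisors.ne_zero hb, IsLocalization.integerNormalization (nonZeroDivisors W) q, ?_⟩
  have h2 : aeval y (IsLocalization.integerNormalization (nonZeroDivisors W) q) =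
      aeval y ((IsLocalization.integerNormalization (nonZeroDivisors W) q).map (algebraMap W K)) :=
    (Polynomial.aeval_map_algebraMap K _ _).symm
  rw [h2, hq]
  have h3 : (b • q : K[X]) = C (algebraMap W K b) * q := by
    rw [← Polynomial.smul_eq_C_mul, algebraMap_smul]
  rw [h3, map_mul, aeval_C, ← IsScalarTower.algebraMap_apply]
  rfl

/-- the abstract lemma over a transcendence basis -/
theorem abs_lemma {k : Type u} [Field k] [CharZero k] {Z : Type u} [CommRing Z] [IsDomain Z]
    [Algebra k Z] {τ : Type} (l : τ → Z) (hl : IsTranscendenceBasis k l) (m : ℕ)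
    (x : Fin (m + 1) → Z) :
    ∃ a : Fin (m + 1) → k, a 0 = 1 ∧ ∃ b : MvPolynomial τ k, b ≠ 0 ∧
      ∃ Q : Fin (m + 1) → (MvPolynomial τ k)[X], ∃ H : (MvPolynomial τ k)[X], H ≠ 0 ∧
      (∀ j, MvPolynomial.aeval l b * x j =
        eval₂ (MvPolynomial.aeval l : MvPolynomial τ k →ₐ[k] Z).toRingHom
          (∑ i, algebraMap k Z (a i) * x i) (Q j)) ∧
      eval₂ (MvPolynomial.aeval l : MvPolynomial τ k →ₐ[k] Z).toRingHom
          (∑ i, algebraMap k Z (a i) * x i) H = 0 := by
  let : Algebra (MvPolynomial τ k) Z := (MvPolynomial.aeval l : MvPolynomial τ k →ₐ[k] Z).toRingHom.toAlgebra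
  have hinj : Function.Injective (algebraMap (MvPolynomial τ k) Z) := hl.1
  have : IsScalarTower k (MvPolynomial τ k) Z := IsScalarTower.of_algebraMap_eq (fun c => by
    change _ = MvPolynomial.aeval l (algebraMap k (MvPolynomial τ k) c)
    rw [AlgHom.commutes])
  let L := FractionRing Z
  have hinj2 : Function.Injective (algebraMap (MvPolynomial τ k) L) := by
    rw [IsScalarTower.algebraMap_eq (MvPolynomial τ k) Z L]
    exact (IsFractionRing.injective Z L).comp hinj
  have : FaithfulSMul (MvPolynomial τ k) L := (faithfulSMul_iff_algebraMap_injective _ _).mpr hinj2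
  let : Algebra (FractionRing (MvPolynomial τ k)) L := FractionRing.liftAlgebra (MvPolynomial τ k) L
  have : IsScalarTower (MvPolynomial τ k) (FractionRing (MvPolynomial τ k)) L :=
    FractionRing.isScalarTower_liftAlgebra _ _
  have : IsScalarTower k (FractionRing (MvPolynomial τ k)) L := IsScalarTower.of_algebraMap_eq (fun c => by
    rw [IsScalarTower.algebraMap_apply k (MvPolynomial τ k) (FractionRing (MvPolynomial τ k)),
      ← IsScalarTower.algebraMap_apply (MvPolynomial τ k) (FractionRing (MvPolynomial τ k)) L,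
      ← IsScalarTower.algebraMap_apply k (MvPolynomial τ k) L])
  have hA := hl.isAlgebraic
  have halgW : ∀ z : Z, IsAlgebraic (MvPolynomial τ k) z := by
    intro z
    obtain ⟨p, hp0, hp⟩ := hA.isAlgebraic z
    refine ⟨p.map (hl.1.aevalEquiv.symm : _ →+* MvPolynomial τ k), ?_, ?_⟩
    · rwa [Ne, Polynomial.map_eq_zero_iff]
      exact hl.1.aevalEquiv.symm.injective
    · rw [aeval_def, eval₂_map]
      rw [aeval_def] at hp
      convert hp using 2
      ext w
      obtain ⟨w', rfl⟩ := hl.1.aevalEquiv.surjective w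
      change algebraMap (MvPolynomial τ k) Z (hl.1.aevalEquiv.symm (hl.1.aevalEquiv w')) = _
      rw [AlgEquiv.symm_apply_apply, hl.1.algebraMap_aevalEquiv]
      rfl
  have halg : ∀ z : Z, IsAlgebraic (FractionRing (MvPolynomial τ k)) (algebraMap Z L z) := by
    intro z
    rw [← IsFractionRing.isAlgebraic_iff (MvPolynomial τ k)]
    exact (halgW z).algebraMap
  obtain ⟨a, ha0, ha⟩ := prim_many (k := k) (K := FractionRing (MvPolynomial τ k)) (L := L) m
    (fun j => algebraMap Z L (x j)) (fun j => halg _)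
  have hsum : ∑ i, algebraMap k L (a i) * algebraMap Z L (x i)
      = algebraMap Z L (∑ i, algebraMap k Z (a i) * x i) := by
    rw [map_sum]
    apply Finset.sum_congr rfl
    intro i _
    rw [map_mul, ← IsScalarTower.algebraMap_apply]
  rw [hsum] at ha
  set y := ∑ i, algebraMap k Z (a i) * x i with hy
  have h1 := fun j => clear_mem (W := MvPolynomial τ k) (algebraMap Z L y) (algebraMap Z L (x j))
    (halg y) (ha j)
  choose b hb Q hQ using h1
  obtain ⟨H, hH0, hH⟩ := halgW y
  have hQ' : ∀ j, MvPolynomial.aeval l (b j) * x j =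
      eval₂ (MvPolynomial.aeval l : MvPolynomial τ k →ₐ[k] Z).toRingHom y (Q j) := by
    intro j
    apply IsFractionRing.injective Z L
    have h2 := hQ j
    rw [IsScalarTower.algebraMap_apply (MvPolynomial τ k) Z L, ← map_mul,
      Polynomial.aeval_algebraMap_apply] at h2
    exact h2
  refine ⟨a, ha0, ∏ j, b j, Finset.prod_ne_zero_iff.mpr (fun j _ => hb j),
    fun j => C (∏ i ∈ Finset.univ.erase j, b i) * Q j, H, hH0, ?_, hH⟩
  intro j
  rw [eval₂_mul, ← hQ' j, eval₂_C, ← Finset.mul_prod_erase Finset.univ b (Finset.mem_univ j),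
    map_mul]
  change _ = MvPolynomial.aeval l _ * _
  ring

/-- final step: from the polynomial relations over `k[τ]` to the specialised data -/
theorem specialise_rel {k : Type u} [Field k] {Z : Type u} [CommRing Z] [Algebra k Z] {τ : Type}
    (l : τ → Z) {m : ℕ} (x : Fin (m + 1) → Z) (a : Fin (m + 1) → k) (b : MvPolynomial τ k)
    (Q : Fin (m + 1) → (MvPolynomial τ k)[X]) (H : (MvPolynomial τ k)[X])
    (hQ : ∀ j, MvPolynomial.aeval l b * x j =
        eval₂ (MvPolynomial.aeval l : MvPolynomial τ k →ₐ[k] Z).toRingHom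
          (∑ i, algebraMap k Z (a i) * x i) (Q j))
    (hH : eval₂ (MvPolynomial.aeval l : MvPolynomial τ k →ₐ[k] Z).toRingHom
          (∑ i, algebraMap k Z (a i) * x i) H = 0)
    (lam : τ → k) (hb : MvPolynomial.eval lam b ≠ 0)
    (hl : MvPolynomial.eval lam H.leadingCoeff ≠ 0) :
    ∃ Q' : Fin (m + 1) → k[X], ∃ H' : k[X], H'.Monic ∧
      ∀ (T : Type u) [CommRing T] [Algebra k T] (ψ : Z →ₐ[k] T),
        (∀ t, ψ (l t) = algebraMap k T (lam t)) →
        (∀ j, ψ (x j) = aeval (∑ i, algebraMap k T (a i) * ψ (x i)) (Q' j)) ∧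
        aeval (∑ i, algebraMap k T (a i) * ψ (x i)) H' = 0 := by
  refine ⟨fun j => C (MvPolynomial.eval lam b)⁻¹ * (Q j).map (MvPolynomial.eval lam),
    C (MvPolynomial.eval lam H.leadingCoeff)⁻¹ * H.map (MvPolynomial.eval lam), ?_, ?_⟩
  · rw [Monic, leadingCoeff_mul, leadingCoeff_C,
      leadingCoeff_map_of_leadingCoeff_ne_zero _ hl, inv_mul_cancel₀ hl]
  · intro T _ _ ψ hψ
    have hcomp : (ψ : Z →+* T).comp (MvPolynomial.aeval l : MvPolynomial τ k →ₐ[k] Z).toRingHom
        = (algebraMap k T).comp (MvPolynomial.eval lam) := by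
      apply MvPolynomial.ringHom_ext
      · intro c
        change ψ (MvPolynomial.aeval l (MvPolynomial.C c)) = algebraMap k T (MvPolynomial.eval lam (MvPolynomial.C c))
        rw [MvPolynomial.aeval_C, MvPolynomial.eval_C, AlgHom.commutes]
      · intro t
        change ψ (MvPolynomial.aeval l (MvPolynomial.X t)) = algebraMap k T (MvPolynomial.eval lam (MvPolynomial.X t))
        rw [MvPolynomial.aeval_X, MvPolynomial.eval_X, hψ]
    have hev : ∀ w, ψ (MvPolynomial.aeval l w) = algebraMap k T (MvPolynomial.eval lam w) :=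
      fun w => congrArg (fun g : MvPolynomial τ k →+* T => g w) hcomp
    have hy : ψ (∑ i, algebraMap k Z (a i) * x i) = ∑ i, algebraMap k T (a i) * ψ (x i) := by
      rw [map_sum]
      apply Finset.sum_congr rfl
      intro i _
      rw [map_mul, AlgHom.commutes]
    have hev2 : ∀ R : (MvPolynomial τ k)[X],
        ψ (eval₂ (MvPolynomial.aeval l : MvPolynomial τ k →ₐ[k] Z).toRingHom
          (∑ i, algebraMap k Z (a i) * x i) R) =
        aeval (∑ i, algebraMap k T (a i) * ψ (x i)) (R.map (MvPolynomial.eval lam)) := by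
      intro R
      have h1 := Polynomial.hom_eval₂ R (MvPolynomial.aeval l : MvPolynomial τ k →ₐ[k] Z).toRingHom
        (ψ : Z →+* T) (∑ i, algebraMap k Z (a i) * x i)
      rw [hcomp] at h1
      rw [aeval_def, eval₂_map, ← hy]
      exact h1
    constructor
    · intro j
      have h1 := congrArg ψ (hQ j)
      rw [hev2, map_mul, hev] at h1
      rw [map_mul, aeval_C, ← h1, ← mul_assoc, ← map_mul, inv_mul_cancel₀ hb, map_one, one_mul]
    · have h1 := congrArg ψ hH
      rw [hev2, map_zero] at h1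
      rw [map_mul, h1, mul_zero]

theorem generic_double {k : Type u} [Field k] [CharZero k] {N m : ℕ} (hNm : 2 * (m + 1) ≤ N)
    (f : Fin (N + 1) → MvPolynomial (Fin (m + 1)) k) :
    ∃ P : MvPolynomial (Fin N × Fin 2) k, P ≠ 0 ∧ ∀ lam : Fin N × Fin 2 → k,
      MvPolynomial.eval lam P ≠ 0 → ∃ a : Fin (m + 1) → k, a 0 = 1 ∧
      ∃ Q : Fin (m + 1) → k[X], ∃ H : k[X], H.Monic ∧ (2 * (m + 1) < N → H = 1) ∧
      ∀ (T : Type u) [CommRing T] [Algebra k T] (p q : MvPolynomial (Fin (m + 1)) k →ₐ[k] T),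
      IsUnit (p (f 0) - q (f 0)) → (∀ ρ, p (shear f lam (C ρ)) = q (shear f lam (C ρ))) →
      (∀ j, p (MvPolynomial.X j) = aeval (p (lin a)) (Q j)) ∧ aeval (p (lin a)) H = 0 := by
  classical
  -- trivial case: every admissible `T` is zero
  have triv : ∀ (P : MvPolynomial (Fin N × Fin 2) k), P ≠ 0 →
      (∀ lam : Fin N × Fin 2 → k, MvPolynomial.eval lam P ≠ 0 →
        ∀ (T : Type u) [CommRing T] [Algebra k T] (p q : MvPolynomial (Fin (m + 1)) k →ₐ[k] T),
        IsUnit (p (f 0) - q (f 0)) → (∀ ρ, p (shear f lam (C ρ)) = q (shear f lam (C ρ))) →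
        Subsingleton T) →
      ∃ P : MvPolynomial (Fin N × Fin 2) k, P ≠ 0 ∧ ∀ lam : Fin N × Fin 2 → k,
      MvPolynomial.eval lam P ≠ 0 → ∃ a : Fin (m + 1) → k, a 0 = 1 ∧
      ∃ Q : Fin (m + 1) → k[X], ∃ H : k[X], H.Monic ∧ (2 * (m + 1) < N → H = 1) ∧
      ∀ (T : Type u) [CommRing T] [Algebra k T] (p q : MvPolynomial (Fin (m + 1)) k →ₐ[k] T),
      IsUnit (p (f 0) - q (f 0)) → (∀ ρ, p (shear f lam (C ρ)) = q (shear f lam (C ρ))) →
      (∀ j, p (MvPolynomial.X j) = aeval (p (lin a)) (Q j)) ∧ aeval (p (lin a)) H = 0 := by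
    intro P hP h
    refine ⟨P, hP, fun lam hlam => ⟨fun _ => 1, rfl, fun _ => 0, 1, monic_one, fun _ => rfl, ?_⟩⟩
    intro T _ _ p q h1 h2
    have := h lam hlam T p q h1 h2
    exact ⟨fun j => Subsingleton.elim _ _, Subsingleton.elim _ _⟩
  let σ := (Fin (m + 1) ⊕ Fin (m + 1)) ⊕ Fin N
  let pS : MvPolynomial (Fin (m + 1)) k →ₐ[k] MvPolynomial σ k :=
    MvPolynomial.aeval (fun j => MvPolynomial.X (Sum.inl (Sum.inl j)))
  let qS : MvPolynomial (Fin (m + 1)) k →ₐ[k] MvPolynomial σ k :=
    MvPolynomial.aeval (fun j => MvPolynomial.X (Sum.inl (Sum.inr j)))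
  let δ : MvPolynomial σ k := pS (f 0) - qS (f 0)
  -- homs from `k[σ]`
  have hom0 : ∀ (lam : Fin N × Fin 2 → k) (T : Type u) [CommRing T] [Algebra k T]
      (p q : MvPolynomial (Fin (m + 1)) k →ₐ[k] T), ∃ ψ : MvPolynomial σ k →ₐ[k] T,
      (∀ g, ψ (pS g) = p g) ∧ (∀ g, ψ (qS g) = q g) ∧
      ∀ i, ψ (MvPolynomial.X (Sum.inr i)) = algebraMap k T (lam (i, 1)) := by
    intro lam T _ _ p q
    refine ⟨MvPolynomial.aeval (Sum.elim (Sum.elim (fun j => p (MvPolynomial.X j))
      (fun j => q (MvPolynomial.X j))) (fun i => algebraMap k T (lam (i, 1)))), ?_, ?_, ?_⟩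
    · intro g
      rw [← AlgHom.comp_apply]
      congr 1
      apply MvPolynomial.algHom_ext
      intro j
      simp [pS]
    · intro g
      rw [← AlgHom.comp_apply]
      congr 1
      apply MvPolynomial.algHom_ext
      intro j
      simp [qS]
    · intro i
      simp
  by_cases hδ : δ = 0
  · apply triv 1 one_ne_zero
    intro lam _ T _ _ p q h1 _
    obtain ⟨ψ, hp, hq, _⟩ := hom0 lam T p q
    have h2 : ψ δ = p (f 0) - q (f 0) := by
      simp only [δ, map_sub, hp, hq]
    rw [hδ, map_zero] at h2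
    rw [← h2] at h1
    exact isUnit_zero_iff.mp h1 |> fun h => subsingleton_of_zero_eq_one h
  let Z := Localization.Away δ
  have hZd : IsDomain Z := IsLocalization.isDomain_localization
    (powers_le_nonZeroDivisors_of_noZeroDivisors hδ)
  let dinv : Z := IsLocalization.Away.invSelf δ
  have hdinv : algebraMap (MvPolynomial σ k) Z δ * dinv = 1 := IsLocalization.Away.mul_invSelf δ
  let lamZ : Fin N × Fin 2 → Z := fun il =>
    if il.2 = 0 then
      -(algebraMap (MvPolynomial σ k) Z (pS (f il.1.succ) - qS (f il.1.succ))) * dinv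
        - algebraMap (MvPolynomial σ k) Z (MvPolynomial.X (Sum.inr il.1) * (pS (f 0) + qS (f 0)))
    else algebraMap (MvPolynomial σ k) Z (MvPolynomial.X (Sum.inr il.1))
  -- homs from `Z`
  have hom1 : ∀ (lam : Fin N × Fin 2 → k) (T : Type u) [CommRing T] [Algebra k T]
      (p q : MvPolynomial (Fin (m + 1)) k →ₐ[k] T),
      IsUnit (p (f 0) - q (f 0)) → (∀ ρ, p (shear f lam (C ρ)) = q (shear f lam (C ρ))) →
      ∃ ψ : Z →ₐ[k] T,
      (∀ g, ψ (algebraMap (MvPolynomial σ k) Z (pS g)) = p g) ∧
      (∀ t, ψ (lamZ t) = algebraMap k T (lam t)) := by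
    intro lam T _ _ p q h1 h2
    obtain ⟨ψ0, hp, hq, hr⟩ := hom0 lam T p q
    have hδu : IsUnit (ψ0 δ) := by
      have h3 : ψ0 δ = p (f 0) - q (f 0) := by
        simp only [δ, map_sub, hp, hq]
      rwa [h3]
    have hun : ∀ y : Submonoid.powers δ, IsUnit (ψ0 y) := by
      rintro ⟨_, n, rfl⟩
      simp only [map_pow]
      exact hδu.pow n
    let ψ : Z →ₐ[k] T := IsLocalization.liftAlgHom (M := Submonoid.powers δ) (f := ψ0) hun
    have hψ : ∀ s, ψ (algebraMap (MvPolynomial σ k) Z s) = ψ0 s := by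
      intro s
      exact IsLocalization.lift_eq _ s
    refine ⟨ψ, fun g => by rw [hψ, hp], ?_⟩
    rintro ⟨i, l⟩
    have hsh : ∀ i : Fin N, shear f lam (C (MvPolynomial.X i)) =
        f i.succ + MvPolynomial.C (lam (i, 0)) * f 0 + MvPolynomial.C (lam (i, 1)) * f 0 ^ 2 := by
      intro i
      simp [shear]
    have h3 := h2 (MvPolynomial.X i)
    rw [hsh i] at h3
    have hC : ∀ (p : MvPolynomial (Fin (m + 1)) k →ₐ[k] T) (c : k),
        p (MvPolynomial.C c) = algebraMap k T c := by
      intro p c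
      rw [← MvPolynomial.algebraMap_eq, AlgHom.commutes]
    simp only [map_add, map_mul, map_pow, hC] at h3
    fin_cases l
    · change ψ (lamZ (i, 0)) = algebraMap k T (lam (i, 0))
      have h4 : lamZ (i, 0) =
          -(algebraMap (MvPolynomial σ k) Z (pS (f i.succ) - qS (f i.succ))) * dinv
          - algebraMap (MvPolynomial σ k) Z
            (MvPolynomial.X (Sum.inr i) * (pS (f 0) + qS (f 0))) := by
        simp only [lamZ, if_true]
      rw [h4]
      have h5 : (p (f 0) - q (f 0)) * ψ dinv = 1 := by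
        have h6 := congrArg ψ hdinv
        rw [map_mul, hψ, map_one] at h6
        rw [← h6]
        congr 1
        simp only [δ, map_sub, hp, hq]
      simp only [map_sub, map_neg, map_mul, map_add, hψ, hp, hq, hr]
      linear_combination (-(ψ dinv)) * h3 + (algebraMap k T (lam (i, 0)) +
        algebraMap k T (lam (i, 1)) * (p (f 0) + q (f 0))) * h5
    · change ψ (lamZ (i, 1)) = algebraMap k T (lam (i, 1))
      have h4 : lamZ (i, 1) = algebraMap (MvPolynomial σ k) Z (MvPolynomial.X (Sum.inr i)) := by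
        simp [lamZ]
      rw [h4, hψ, hr]
  by_cases hind : AlgebraicIndependent k lamZ
  swap
  · rw [algebraicIndependent_iff] at hind
    push Not at hind
    obtain ⟨P, hP, hP0⟩ := hind
    apply triv P hP0
    intro lam hlam T _ _ p q h1 h2
    obtain ⟨ψ, hp, hl⟩ := hom1 lam T p q h1 h2
    have h3 := congrArg ψ hP
    rw [map_zero, ← AlgHom.comp_apply, MvPolynomial.comp_aeval] at h3
    have h4 : (fun i => ψ (lamZ i)) = algebraMap k T ∘ lam := funext hl
    rw [h4, MvPolynomial.aeval_algebraMap_apply] at h3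
    have h5 : IsUnit (algebraMap k T (MvPolynomial.aeval lam P)) :=
      (IsUnit.mk0 _ hlam).map (algebraMap k T)
    rw [h3] at h5
    exact subsingleton_of_zero_eq_one (isUnit_zero_iff.mp h5)
  -- independent case
  have hdeg : Algebra.trdeg k Z = Cardinal.lift.{u} (Cardinal.mk σ) := by
    have hinjS : Function.Injective (algebraMap (MvPolynomial σ k) Z) :=
      IsLocalization.injective Z (powers_le_nonZeroDivisors_of_noZeroDivisors hδ)
    have : FaithfulSMul (MvPolynomial σ k) Z := (faithfulSMul_iff_algebraMap_injective _ _).mpr hinjS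
    have : Algebra.IsAlgebraic (MvPolynomial σ k) Z :=
      IsLocalization.isAlgebraic _ (Submonoid.powers δ)
    have h1 := (IsTranscendenceBasis.mvPolynomial σ k).algebraMap_comp (A := Z)
    have h2 := h1.lift_cardinalMk_eq_trdeg
    simpa using h2.symm
  have hcard : (Fintype.card σ) = 2 * (m + 1) + N := by
    simp [σ]
    ring
  have hle : 2 * N ≤ 2 * (m + 1) + N := by
    have h1 := hind.lift_cardinalMk_le_trdeg
    rw [hdeg] at h1
    simp only [Cardinal.mk_fintype, Cardinal.lift_natCast, Nat.cast_le, hcard,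
      Fintype.card_prod, Fintype.card_fin] at h1
    omega
  have hbasis : IsTranscendenceBasis k lamZ := by
    apply hind.isTranscendenceBasis_of_lift_trdeg_le_of_finite
    rw [hdeg]
    simp only [Cardinal.mk_fintype, Cardinal.lift_natCast, Nat.cast_le, hcard,
      Fintype.card_prod, Fintype.card_fin]
    omega
  obtain ⟨a, ha0, b, hb, Q, H, hH0, hQ, hH⟩ := abs_lemma lamZ hbasis m
    (fun j => algebraMap (MvPolynomial σ k) Z (pS (MvPolynomial.X j)))
  refine ⟨b * H.leadingCoeff, mul_ne_zero hb (leadingCoeff_ne_zero.mpr hH0), fun lam hlam => ?_⟩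
  rw [map_mul] at hlam
  obtain ⟨Q', H', hH', hspec⟩ := specialise_rel lamZ
    (fun j => algebraMap (MvPolynomial σ k) Z (pS (MvPolynomial.X j))) a b Q H hQ hH lam
    (left_ne_zero_of_mul hlam) (right_ne_zero_of_mul hlam)
  refine ⟨a, ha0, Q', H', hH', fun h => by omega, ?_⟩
  intro T _ _ p q h1 h2
  obtain ⟨ψ, hp, hl⟩ := hom1 lam T p q h1 h2
  obtain ⟨h3, h4⟩ := hspec T ψ hl
  have h5 : ∑ i, algebraMap k T (a i) * ψ (algebraMap (MvPolynomial σ k) Z (pS (MvPolynomial.X i)))
      = p (lin a) := by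
    simp only [hp, lin, map_sum, map_mul]
    apply Finset.sum_congr rfl
    intro i _
    rw [← MvPolynomial.algebraMap_eq, AlgHom.commutes]
  rw [h5] at h4
  refine ⟨fun j => ?_, h4⟩
  have h6 := h3 j
  rwa [h5, hp] at h6

end Pool.Agent.H71.AAE
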